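import Pool.Agent.H68.LCS.Targets

/-!
# Row A_PRJ of the board lpq: projection along a compact set
-/

set_option autoImplicit false

open Set Filter Topology
open scoped Pointwise

namespace Pool.Agent.H77.LCS

open Pool.Agent.H93.CP Pool.Agent.H7.LP Pool.Agent.H7.LQ Pool.Agent.H68.LCS

theorem pf_PRJ : T_PRJ := by
  intro A S _ _ N E hN hE
  rw [← isOpen_compl_iff, isOpen_iff_mem_nhds]
  intro a ha
  have h1 : ({a} : Set A) ×ˢ N ⊆ Eᶜ := by
    rintro ⟨a', g⟩ ⟨h2, h3⟩ h4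
    have h5 : a' = a := h2
    subst h5
    exact ha ⟨g, h3, h4⟩
  obtain ⟨U, V, hU, -, haU, hNV, hUV⟩ :=
    generalized_tube_lemma isCompact_singleton hN hE.isOpen_compl h1
  refine Filter.mem_of_superset (hU.mem_nhds (haU rfl)) ?_
  rintro b hb ⟨g, hg, hE'⟩
  have h6 : (b, g) ∈ U ×ˢ V := ⟨hb, hNV hg⟩
  exact hUV h6 hE'

end Pool.Agent.H77.LCS
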